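import Mathlib
import Pool.Agent.Q247.RD.Gam5
import Pool.Agent.Q205.RP.Verify2

/-!
# The `3x+d` problem for almost every perturbation, for all odd `d` at once, with the sharp constant

`T d` is the `3x+d` map. For `ω : ℤ → {0, …, 5}` let `U d ω x = T d (x + ω x)` (`ω = 0` gives
`T d`). Let the `ω x` be independent and uniform. Then almost surely, for all odd `d` at once, every
integer reaches a finite set, the limsup of the scaled stopping times is the constant `γ_RRW` of the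
repeated random walk model of the `3x+1` problem, and the frequencies of the large stopping times
obey the large deviation law of this model. If the `ω` are chosen at random among those that agree
with a finite verification up to `N`, with the finite set `F`, then every integer reaches `F` (and
the laws above hold for `F`), up to a probability `exp (- exp (c √(log N)))`.
-/

set_option autoImplicit false

open MeasureTheory Finset Filter Topology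

namespace Pool.Agent.Results.MP_d0d59f_nt.ConstantForAllD

/-- The `3x+d` map. -/
def T (d x : ℤ) : ℤ := if x % 2 = 0 then x / 2 else (3 * x + d) / 2

/-- The perturbed map. -/
def U (d : ℤ) (ω : ℤ → Fin 6) (x : ℤ) : ℤ := T d (x + ((ω x : ℕ) : ℤ))

/-- The law of independent fair dice, with faces `0, …, 5`, one for each integer. -/
noncomputable def dice : Measure (ℤ → Fin 6) :=
  Measure.infinitePi (fun _ : ℤ => (PMF.uniformOfFintype (Fin 6)).toMeasure)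

/-- `g(a) = sup_θ (θ a - log (½ (2^θ + (2/3)^θ)))`. -/
noncomputable def g (a : ℝ) : ℝ :=
  ⨆ θ : ℝ, (θ * a - Real.log ((1 / 2) * ((2 : ℝ) ^ θ + (2 / 3 : ℝ) ^ θ)))

/-- `limsup σ(n) / log n = γ`, for `σ(n)` the time of the first visit to `A` from the positive
integer `n` (finite for all large `n`). -/
def IsConstant (d : ℤ) (ω : ℤ → Fin 6) (A : Finset ℤ) (γ : ℝ) : Prop :=
  (∀ ε : ℝ, ε > 0 → ∃ N : ℕ, ∀ n : ℕ, N ≤ n →
    ∃ k : ℕ, (U d ω)^[k] (n : ℤ) ∈ A ∧ (k : ℝ) ≤ (γ + ε) * Real.log (n : ℝ)) ∧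
  (∀ ε : ℝ, ε > 0 → ∀ N : ℕ, ∃ n : ℕ, N ≤ n ∧
    ∀ k : ℕ, (U d ω)^[k] (n : ℤ) ∈ A → (γ - ε) * Real.log (n : ℝ) ≤ (k : ℝ))

/-- `σ(n) ≤ (γ + o(1)) log |n|` for all integers `n`, positive or negative. -/
def UpperAll (d : ℤ) (ω : ℤ → Fin 6) (A : Finset ℤ) (γ : ℝ) : Prop :=
  ∀ ε : ℝ, ε > 0 → ∃ N : ℕ, ∀ n : ℤ, (N : ℤ) ≤ |n| →
    ∃ k : ℕ, (U d ω)^[k] n ∈ A ∧ (k : ℝ) ≤ (γ + ε) * Real.log |(n : ℝ)|

/-- The `n ≤ x` with `σ(n) ≥ α log n`. -/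
def late (d : ℤ) (ω : ℤ → Fin 6) (A : Finset ℤ) (α x : ℝ) : Set ℕ :=
  {n : ℕ | 1 ≤ n ∧ (n : ℝ) ≤ x ∧ ∀ k : ℕ, (U d ω)^[k] (n : ℤ) ∈ A → α * Real.log n ≤ k}

/-- For all `α` between `(½ log (4/3))⁻¹` and `γ` the number of `n ≤ x` with `σ(n) ≥ α log n` is
`x ^ (1 - α g(1/α) + o(1))`. -/
def Frequencies (d : ℤ) (ω : ℤ → Fin 6) (A : Finset ℤ) (γ : ℝ) : Prop :=
  ∀ α : ℝ, ((1 / 2) * Real.log (4 / 3))⁻¹ < α → α < γ → ∀ ε : ℝ, ε > 0 → ∃ X₀ : ℝ, ∀ x : ℝ,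
    X₀ ≤ x → x ^ (1 - α * g (1 / α) - ε) ≤ ((late d ω A α x).ncard : ℝ) ∧
      ((late d ω A α x).ncard : ℝ) ≤ x ^ (1 - α * g (1 / α) + ε)

/-- The assertion of the problem for the map `U d ω`, with the finite set `F`, and the laws of the
stopping times. -/
def Good (d : ℤ) (ω : ℤ → Fin 6) (F : Finset ℤ) (γ : ℝ) : Prop :=
  (∀ n : ℤ, ∃ k : ℕ, (U d ω)^[k] n ∈ F) ∧ IsConstant d ω F γ ∧ UpperAll d ω F γ ∧
    Frequencies d ω F γ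

/-- The assertion of the problem for the map `U d ω`, and the laws of the stopping times, for every
finite set which can be taken in it. -/
def AllLaws (d : ℤ) (ω : ℤ → Fin 6) (γ : ℝ) : Prop :=
  (∃ F : Finset ℤ, ∀ n : ℤ, ∃ k : ℕ, (U d ω)^[k] n ∈ F) ∧
    (∀ A : Finset ℤ, (∀ n : ℤ, 1 ≤ n → ∃ k : ℕ, (U d ω)^[k] n ∈ A) →
      IsConstant d ω A γ ∧ Frequencies d ω A γ) ∧
    (∀ A : Finset ℤ, (∀ n : ℤ, ∃ k : ℕ, (U d ω)^[k] n ∈ A) → UpperAll d ω A γ)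

theorem U_eq (d : ℤ) (ω : ℤ → Fin 6) : Q205.RP.Tn (Q247.RD.Gd d) ω = U d ω := rfl

/-- a contracting power function -/
theorem contract (d : ℤ) [Q247.RD.OddI d] :
    ∃ s κ : ℝ, 0 < s ∧ 0 < κ ∧ κ < (6 : ℕ) ∧ ∃ N : ℕ, ∀ x : ℤ, (N : ℤ) < |x| →
    ∑ c, Q205.RP.VV s (Q247.RD.Gd d x c) ≤ κ * Q205.RP.VV s x := by
  obtain ⟨θ, ρ, a1, a2, a3, a4, a5, _⟩ :=
    Q205.RP.tilt_alpha (α := Q205.RP.mu + 1) (by linarith)
  set r := Pool.Agent.H395R2.G3.rr (Q205.RP.mu + 1) with hr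
  have e0 : 3 * ((1 / 2 : ℝ) ^ θ + (3 / 2) ^ θ) = 6 * ρ := by
    have e1 : (1 / 2 : ℝ) ^ θ = 2 * (1 - r) * ρ := by linarith
    have e2 : (3 / 2 : ℝ) ^ θ = 2 * r * ρ := by linarith
    rw [e1, e2]
    ring
  obtain ⟨κ, h1, h2⟩ := exists_between (show 6 * ρ < 6 by linarith)
  obtain ⟨N, hN⟩ := Q247.RD.drift6' (ϑ := d) θ κ (by rw [e0]; exact h1)
  exact ⟨θ, κ, a1, by linarith, by push_cast; exact h2, N, hN⟩

/-- the upper bound for the stopping times of all integers -/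
theorem upper_all {d : ℤ} [Q247.RD.OddI d] {γ₀ : ℝ} (hγ : Q205.RP.mu < γ₀) {ω : ℤ → Fin 6}
    (hω : Q247.RD.Typ d γ₀ ω) {A : Finset ℤ} (hA : ∀ n : ℤ, ∃ k, (U d ω)^[k] n ∈ A) :
    UpperAll d ω A γ₀ := by
  intro ε hε
  have hγ0 : 0 < γ₀ := Q205.RP.mu_pos.trans hγ
  obtain ⟨m, hm⟩ := exists_nat_one_div_lt hε
  obtain ⟨N₁, hN₁⟩ := Q247.RD.log_two_le (a := γ₀ + 1 / ((m : ℝ) + 1)) (b := γ₀ + ε)
    (by positivity) (by linarith)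
  obtain ⟨M, hM⟩ : ∃ M : ℕ, ∀ n : ℤ, (M : ℤ) ≤ |n| →
      ¬ Q247.RD.Dst d (γ₀ + 1 / ((m : ℝ) + 1)) n ω := by
    obtain ⟨M, hM⟩ := ((hω.a m).image Int.natAbs).bddAbove
    refine ⟨M + 1, fun n hn hd => ?_⟩
    have h1 := hM ⟨n, hd, rfl⟩
    rw [Int.abs_eq_natAbs] at hn
    omega
  refine ⟨max N₁ M, fun n hn => ?_⟩
  push_cast at hn
  have hnN : (N₁ : ℤ) ≤ |n| := (le_max_left _ _).trans hn
  have hnM : (M : ℤ) ≤ |n| := (le_max_right _ _).trans hn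
  have hex := hA n
  rw [← U_eq] at hex
  refine ⟨Q205.RP.hitT (Q205.RP.Tn (Q247.RD.Gd d) ω) A n, (Q205.RP.hitT_spec hex).1, ?_⟩
  by_contra hcon
  rw [not_le] at hcon
  apply hM n hnM
  apply Q247.RD.nodup_hit hex
  apply Nat.ceil_le.2
  have h1 : |(n : ℝ)| = ((n.natAbs : ℕ) : ℝ) := by
    rw [Nat.cast_natAbs, Int.cast_abs]
  have h2 : N₁ ≤ n.natAbs := by
    rw [Int.abs_eq_natAbs] at hnN
    exact_mod_cast hnN
  have h3 := hN₁ n.natAbs h2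
  rw [← h1] at h3
  exact h3.trans hcon.le

theorem almost_every {γ₀ : ℝ} (hneg : ∀ α, γ₀ < α → Q205.RP.ex α < 0)
    (hγ : Q205.RP.mu < γ₀) (hpos : ∀ α, Q205.RP.mu < α → α < γ₀ → 0 < Q205.RP.ex α)
    (d : ℤ) [Q247.RD.OddI d] : ∀ᵐ ω ∂dice, AllLaws d ω γ₀ := by
  obtain ⟨s, κ, hs, hκ0, hκ, N, hN⟩ := contract d
  have h1 := Q247.RD.typical (ϑ := d) hneg hγ hpos
  have h2 := Q205.RP.cycles_ae (Q247.RD.Gd d) (Q205.RP.VV s) κ (Q205.RP.VV_pos s) hκ0 hκ N hN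
    (p := 2) (q := 3) (E := 1) (R := Q247.RD.kk d) (by norm_num) (by norm_num) (by norm_num)
    (by linarith [Q247.RD.kk_ge d]) Q247.RD.rec_Gd
  have h3 := Q205.RP.evper_ae (Q247.RD.Gd d) (Q205.RP.VV s) κ (Q205.RP.VV_ge hs.le) hκ0 hκ N hN
  change ∀ᵐ ω ∂(Q205.RP.P 6), _
  filter_upwards [h1, h2, h3] with ω hω hper hev
  refine ⟨⟨hper.toFinset, fun n => ?_⟩, fun A hA => ⟨⟨?_, ?_⟩, ?_⟩, fun A hA =>
    upper_all hγ hω hA⟩
  · obtain ⟨i, j, hij, hxx⟩ := hev n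
    refine ⟨i, ?_⟩
    rw [Set.Finite.mem_toFinset]
    exact Q205.RP.mem_periodicPts_of_eq _ hij hxx
  · intro ε hε
    exact Q247.RD.lim_upper hγ hω hA hε
  · intro ε hε M
    exact Q247.RD.lim_lower hγ hpos hω A hε M
  · intro α hα1 hα2 ε hε
    have hE := hpos α hα1 hα2
    obtain ⟨X₁, hX₁⟩ := Q247.RD.ld_lower hω A hα1 hα2 hE hε
    obtain ⟨X₂, hX₂⟩ := Q247.RD.ld_upper hω hA hα1 hα2 hE hε
    exact ⟨max X₁ X₂, fun x hx => ⟨hX₁ x ((le_max_left _ _).trans hx),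
      hX₂ x ((le_max_right _ _).trans hx)⟩⟩

theorem main {γ₀ : ℝ} (hneg : ∀ α, γ₀ < α → Q205.RP.ex α < 0)
    (hγ : Q205.RP.mu < γ₀) (hpos : ∀ α, Q205.RP.mu < α → α < γ₀ → 0 < Q205.RP.ex α)
    (d : ℤ) [Q247.RD.OddI d] :
    ∃ c : ℝ, 0 < c ∧ ∃ N₀ : ℕ, ∀ N : ℕ, N₀ ≤ N → ∀ (D F : Finset ℤ) (f : ℤ → Fin 6),
    (∀ n : ℤ, |n| ≤ N → n ∈ D) → (∀ n ∈ D, U d f n ∈ D) →
    (∀ n ∈ D, ∃ k : ℕ, (U d f)^[k] n ∈ F) →
    dice {ω | (∀ n ∈ D, ω n = f n) ∧ ¬ Good d ω F γ₀} ≤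
      ENNReal.ofReal (Real.exp (-Real.exp (c * Real.sqrt (Real.log N)))) *
        dice {ω | ∀ n ∈ D, ω n = f n} := by
  obtain ⟨s, κ, hs, hκ0, hκ, N₁, hN₁⟩ := contract d
  obtain ⟨c, hc, N₀, h⟩ := Q205.RP.verify (Q247.RD.Gd d) (Q205.RP.VV s) κ (Q205.RP.VV_ge hs.le)
    hκ0 hκ N₁ hN₁ (p := 2) (q := 3) (E := 1) (R := Q247.RD.kk d) (by norm_num) (by norm_num)
    (by norm_num) (by linarith [Q247.RD.kk_ge d]) Q247.RD.rec_Gd
  refine ⟨c, hc, N₀, fun N hN D F f hD1 hD2 hD3 => ?_⟩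
  have h1 := h N hN D f Set.univ (fun _ _ _ => Set.mem_univ _) (fun z _ hz => hD1 z hz)
  have hae := almost_every hneg hγ hpos d
  rw [ae_iff] at hae
  have hcover : {ω | (∀ n ∈ D, ω n = f n) ∧ ¬ Good d ω F γ₀} ⊆
      {ω | ¬ AllLaws d ω γ₀} ∪
      {ω | (∃ x ∈ (Set.univ : Set ℤ), ∀ j, (Q205.RP.Tn (Q247.RD.Gd d) ω)^[j] x ∉ D) ∧
        ∀ s ∈ D, ω s = f s} := by
    rintro ω ⟨hω, hbad⟩
    by_cases ha : AllLaws d ω γ₀
    swap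
    · exact Or.inl ha
    right
    refine ⟨?_, hω⟩
    by_contra hcon
    push Not at hcon
    apply hbad
    have hreach : ∀ n : ℤ, ∃ k : ℕ, (U d ω)^[k] n ∈ F := by
      intro n
      obtain ⟨j, hj⟩ := hcon n (Set.mem_univ n)
      rw [U_eq] at hj
      obtain ⟨k, hk⟩ := hD3 _ hj
      have hit := Q205.RP.iter_eq (Q247.RD.Gd d) ω f D hω (fun s hs => hD2 s hs) hj k
      rw [U_eq, U_eq] at hit
      refine ⟨k + j, ?_⟩
      rw [Function.iterate_add_apply, hit.1]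
      exact hk
    obtain ⟨hc1, hc2⟩ := ha.2.1 F (fun n _ => hreach n)
    exact ⟨hreach, hc1, ha.2.2 F hreach, hc2⟩
  refine (measure_mono hcover).trans ((measure_union_le _ _).trans ?_)
  rw [hae, zero_add]
  exact h1

theorem result : ∃ γ₀ : ℝ,
    (γ₀ > ((1 / 2) * Real.log (4 / 3))⁻¹ ∧ γ₀ * g (1 / γ₀) = 1) ∧
    (∀ γ : ℝ, γ > ((1 / 2) * Real.log (4 / 3))⁻¹ → γ * g (1 / γ) = 1 → γ = γ₀) ∧
    (∀ α : ℝ, ((1 / 2) * Real.log (4 / 3))⁻¹ < α → α < γ₀ → 0 < 1 - α * g (1 / α)) ∧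
    (∀ᵐ ω ∂dice, ∀ d : ℤ, Odd d →
      (∃ F : Finset ℤ, ∀ n : ℤ, ∃ k : ℕ, (U d ω)^[k] n ∈ F) ∧
      (∀ A : Finset ℤ, (∀ n : ℤ, 1 ≤ n → ∃ k : ℕ, (U d ω)^[k] n ∈ A) →
        IsConstant d ω A γ₀ ∧ Frequencies d ω A γ₀) ∧
      (∀ A : Finset ℤ, (∀ n : ℤ, ∃ k : ℕ, (U d ω)^[k] n ∈ A) → UpperAll d ω A γ₀)) ∧
    (∀ d : ℤ, Odd d → ∃ c : ℝ, 0 < c ∧ ∃ N₀ : ℕ, ∀ N : ℕ, N₀ ≤ N →
      ∀ (D F : Finset ℤ) (f : ℤ → Fin 6),
      (∀ n : ℤ, |n| ≤ N → n ∈ D) → (∀ n ∈ D, U d f n ∈ D) →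
      (∀ n ∈ D, ∃ k : ℕ, (U d f)^[k] n ∈ F) →
      dice {ω | (∀ n ∈ D, ω n = f n) ∧ ¬ Good d ω F γ₀} ≤
        ENNReal.ofReal (Real.exp (-Real.exp (c * Real.sqrt (Real.log N)))) *
          dice {ω | ∀ n ∈ D, ω n = f n}) := by
  obtain ⟨γ₀, _, ⟨hγ1, hγ2⟩, huniq, hFF⟩ := Pool.Agent.H395R2.G3.exists_gamma
  have hγ : Q205.RP.mu < γ₀ := hγ1
  have hpos : ∀ α, Q205.RP.mu < α → α < γ₀ → 0 < Q205.RP.ex α := by
    intro α h1 h2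
    rw [Q205.RP.ex_eq h1]
    exact mul_pos (Q205.RP.mu_pos.trans h1)
      (hFF α (Q205.RP.inv_log_two_lt_mu.trans h1) h2)
  have hneg : ∀ α, γ₀ < α → Q205.RP.ex α < 0 := by
    intro α h1
    have hα : Q205.RP.mu < α := hγ.trans h1
    have hγ0 : 0 < γ₀ := Q205.RP.mu_pos.trans hγ
    have hα0 : 0 < α := hγ0.trans h1
    have hl3 : 0 < Real.log 3 := Real.log_pos (by norm_num)
    by_contra hcon
    rw [not_lt, Q205.RP.ex_eq hα] at hcon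
    have h2 : 0 ≤ Pool.Agent.H395R2.G3.FF (Pool.Agent.H395R2.G3.rr α) :=
      nonneg_of_mul_nonneg_right hcon hα0
    have h3 : Pool.Agent.H395R2.G3.rr γ₀ < Pool.Agent.H395R2.G3.rr α := by
      unfold Pool.Agent.H395R2.G3.rr
      apply div_lt_div_of_pos_right _ hl3
      have := one_div_lt_one_div_of_lt hγ0 h1
      linarith
    have h4 := Pool.Agent.H395R2.G3.FF_pos_of
      (Pool.Agent.H395R2.G3.rr_pos (Q205.RP.inv_log_two_lt_mu.trans hγ)) h3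
      (Pool.Agent.H395R2.G3.rr_lt_one hα0).le h2
    have h5 := Pool.Agent.H395R2.G3.expo_eq (Q205.RP.inv_log_two_lt_mu.trans hγ)
    rw [hγ2, sub_self] at h5
    have h6 := mul_pos hγ0 h4
    linarith
  refine ⟨γ₀, ⟨hγ1, hγ2⟩, huniq, hpos, ?_, fun d hd => ?_⟩
  · rw [ae_all_iff]
    intro d
    by_cases hd : Odd d
    · haveI : Q247.RD.OddI d := ⟨Int.odd_iff.1 hd⟩
      filter_upwards [almost_every hneg hγ hpos d] with ω hω _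
      exact hω
    · exact ae_of_all _ (fun ω h => absurd h hd)
  · haveI : Q247.RD.OddI d := ⟨Int.odd_iff.1 hd⟩
    exact main hneg hγ hpos d

end Pool.Agent.Results.MP_d0d59f_nt.ConstantForAllD
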