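import Pool.Agent.Q64.CY.Alm

/-!
# Most of the `3x+d` maps have no short cycles of their own

If the elements of a cycle of the `3x+d` map have the greatest common divisor `g` with `d`, then the cycle
is `g` times a cycle of the `3x+d/g` map (for `d` prime to `3`). It is shown that for most `d` all short
cycles of the `3x+d` map come in this way from the map of a small divisor `d/g` of `d`: for `X ≥ 1`,
`N ≥ 2` and `z ≥ 1` there are at most `21 X log N / log z` odd `d ≤ X` for which there is an integer `x`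
with `T^n x = x`, or only `T^n x ≡ x` modulo `d`, for some `1 ≤ n ≤ N`, and with `d / gcd (x, d) ≥ z`.
In particular the set of the `d` for which the `3x+d` map has a cycle of length at most `d ^ δ` whose
elements are prime to `d` has upper density at most `22 δ`.

Proof. If `T^n x ≡ x` modulo `d` and `m` of the `n` numbers `x, …, T^(n-1) x` are odd, then
`D = d / gcd (x, d)` divides `2 ^ n - 3 ^ m`, which is not `0`. The numbers `2 ^ n - 3 ^ m` with `m ≤ n ≤ N`
have together `O(N^3)` prime factors, so that the `d` divisible by one of them which is larger than `N^4`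
are few. For the remaining `d` the divisor `D` has no prime factor above `N^4`, so that the
`N^4`-smooth part of `d` is at least `z`; its logarithm has the mean value `O(log N)`.
-/

set_option autoImplicit false

open Finset

namespace Pool.Agent.Results.MP_d0d59f_nt.FewShortCycles

/-- The `3x+d` map on the integers. -/
def T (d x : ℤ) : ℤ := if x % 2 = 0 then x / 2 else (3 * x + d) / 2

open Classical in
/-- (1) For all natural numbers `X` and `N ≥ 2` and real `z > 1` there are at most `21 X log N / log z`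
odd `d` with `1 ≤ d ≤ X` for which there are an integer `x` and `1 ≤ n ≤ N` with `T^n x = x`, or only
`T^n x ≡ x` modulo `d`, and `z gcd (x, d) ≤ d`.
(2) For all `δ, ε > 0` there is `X₀` such that for all `X ≥ X₀` there are at most `22 (δ / ε) X` odd `d`
with `1 ≤ d ≤ X` for which there are an integer `x` with `gcd (x, d) ≤ d ^ (1 - ε)` and
`1 ≤ n ≤ d ^ δ` with `T^n x = x`, or only `T^n x ≡ x` modulo `d`. -/
theorem result :
    (∀ (X N : ℕ) (z : ℝ), 2 ≤ N → 1 < z →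
      (((Icc 1 X).filter fun d : ℕ => d % 2 = 1 ∧ ∃ (x : ℤ) (n : ℕ), 1 ≤ n ∧ n ≤ N ∧
        ((T d)^[n] x = x ∨ (T d)^[n] x ≡ x [ZMOD (d : ℤ)]) ∧
        z * (Int.gcd x d : ℝ) ≤ d).card : ℝ) ≤ 21 * X * Real.log N / Real.log z) ∧
    (∀ δ ε : ℝ, 0 < δ → 0 < ε → ∃ X₀ : ℕ, ∀ X : ℕ, X₀ ≤ X →
      (((Icc 1 X).filter fun d : ℕ => d % 2 = 1 ∧ ∃ (x : ℤ) (n : ℕ), 1 ≤ n ∧ (n : ℝ) ≤ (d : ℝ) ^ δ ∧
        ((T d)^[n] x = x ∨ (T d)^[n] x ≡ x [ZMOD (d : ℤ)]) ∧
        (Int.gcd x d : ℝ) ≤ (d : ℝ) ^ (1 - ε)).card : ℝ) ≤ 22 * (δ / ε) * X) := by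
  have main : ∀ (X N : ℕ) (z : ℝ), 2 ≤ N → 1 < z →
      (((Icc 1 X).filter fun d : ℕ => d % 2 = 1 ∧ ∃ (x : ℤ) (n : ℕ), 1 ≤ n ∧ n ≤ N ∧
        ((T d)^[n] x = x ∨ (T d)^[n] x ≡ x [ZMOD (d : ℤ)]) ∧
        z * (Int.gcd x d : ℝ) ≤ d).card : ℝ) ≤ 21 * X * Real.log N / Real.log z := by
    intro X N z hN hz
    rw [le_div_iff₀ (Real.log_pos hz)]
    refine le_trans ?_ (Q64.CY.almost_all X N hN z hz.le)
    refine mul_le_mul_of_nonneg_right ?_ (Real.log_nonneg hz.le)
    norm_cast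
    refine Finset.card_le_card ?_
    intro d hd
    rw [Finset.mem_filter] at hd ⊢
    obtain ⟨hd1, hodd, x, n, h1, h2, h3, h4⟩ := hd
    refine ⟨hd1, hodd, x, n, h1, h2, ?_, h4⟩
    change (T d)^[n] x ≡ x [ZMOD (d : ℤ)]
    rcases h3 with h3 | h3
    · rw [h3]
    · exact h3
  refine ⟨main, ?_⟩
  intro δ ε hδ hε
  -- the exponents
  have hlim1 : Filter.Tendsto (fun X : ℝ => X ^ δ) Filter.atTop Filter.atTop :=
    tendsto_rpow_atTop hδ
  have hlim2 : Filter.Tendsto (fun X : ℝ => X ^ (0.02 : ℝ)) Filter.atTop Filter.atTop :=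
    tendsto_rpow_atTop (by norm_num)
  have e1 := hlim1.comp tendsto_natCast_atTop_atTop (α := ℕ) |>.eventually_ge_atTop (2 : ℝ)
  have e2 := hlim2.comp tendsto_natCast_atTop_atTop (α := ℕ) |>.eventually_ge_atTop (2 * ε / δ)
  obtain ⟨X₀, hX₀⟩ := Filter.eventually_atTop.1 (e1.and (e2.and (Filter.eventually_ge_atTop 2)))
  refine ⟨X₀, fun X hX => ?_⟩
  obtain ⟨h1, h2, h3⟩ := hX₀ X hX
  simp only [Function.comp_apply] at h1 h2
  have hX1 : (1 : ℝ) < X := by exact_mod_cast (by omega : 1 < X)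
  have hX0 : (0 : ℝ) < X := by linarith
  have hlX : 0 < Real.log X := Real.log_pos hX1
  set N := ⌊(X : ℝ) ^ δ⌋₊ with hNdef
  have hN2 : 2 ≤ N := Nat.le_floor (by exact_mod_cast h1)
  set z : ℝ := (X : ℝ) ^ (0.98 * ε) with hz
  have hz1 : 1 < z := Real.one_lt_rpow hX1 (by positivity)
  have hmain := main X N z hN2 hz1
  set S := (Icc 1 X).filter fun d : ℕ => d % 2 = 1 ∧ ∃ (x : ℤ) (n : ℕ), 1 ≤ n ∧ n ≤ N ∧
        ((T d)^[n] x = x ∨ (T d)^[n] x ≡ x [ZMOD (d : ℤ)]) ∧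
        z * (Int.gcd x d : ℝ) ≤ d with hS
  have hlogz : Real.log z = 0.98 * ε * Real.log X := by rw [hz, Real.log_rpow hX0]
  have hlogN : Real.log N ≤ δ * Real.log X := by
    rw [← Real.log_rpow hX0]
    exact Real.log_le_log (by exact_mod_cast (by omega : 0 < N)) (Nat.floor_le (by positivity))
  have hSc : (S.card : ℝ) ≤ 21.5 * (δ / ε) * X := by
    refine hmain.trans ?_
    rw [hlogz, div_le_iff₀ (by positivity)]
    calc 21 * (X : ℝ) * Real.log N ≤ 21 * X * (δ * Real.log X) :=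
          mul_le_mul_of_nonneg_left hlogN (by positivity)
      _ ≤ 21.5 * 0.98 * (X * (δ * Real.log X)) := by
          have : 0 ≤ (X : ℝ) * (δ * Real.log X) := by positivity
          nlinarith
      _ = 21.5 * (δ / ε) * X * (0.98 * ε * Real.log X) := by
          field_simp
  set M := ⌊(X : ℝ) ^ (0.98 : ℝ)⌋₊ with hM
  have hsub : ((Icc 1 X).filter fun d : ℕ => d % 2 = 1 ∧ ∃ (x : ℤ) (n : ℕ), 1 ≤ n ∧
      (n : ℝ) ≤ (d : ℝ) ^ δ ∧ ((T d)^[n] x = x ∨ (T d)^[n] x ≡ x [ZMOD (d : ℤ)]) ∧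
      (Int.gcd x d : ℝ) ≤ (d : ℝ) ^ (1 - ε)) ⊆ S ∪ Icc 1 M := by
    intro d hd
    rw [Finset.mem_filter, Finset.mem_Icc] at hd
    obtain ⟨⟨hd1, hdX⟩, hodd, x, n, hn1, hn, hret, hg⟩ := hd
    rw [Finset.mem_union]
    have hd0 : (0 : ℝ) < d := by exact_mod_cast (by omega : 0 < d)
    have hdXr : (d : ℝ) ≤ X := by exact_mod_cast hdX
    by_cases hdM : (d : ℝ) ≤ (X : ℝ) ^ (0.98 : ℝ)
    · right
      exact Finset.mem_Icc.2 ⟨hd1, Nat.le_floor hdM⟩
    · left
      push Not at hdM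
      rw [hS, Finset.mem_filter, Finset.mem_Icc]
      refine ⟨⟨hd1, hdX⟩, hodd, x, n, hn1, ?_, hret, ?_⟩
      · exact Nat.le_floor (hn.trans (Real.rpow_le_rpow hd0.le hdXr hδ.le))
      · have h4 : z ≤ (d : ℝ) ^ ε := by
          rw [hz, Real.rpow_mul hX0.le]
          exact Real.rpow_le_rpow (by positivity) hdM.le hε.le
        calc z * (Int.gcd x d : ℝ) ≤ (d : ℝ) ^ ε * (d : ℝ) ^ (1 - ε) :=
              mul_le_mul h4 hg (Nat.cast_nonneg _) (by positivity)
          _ = d := by rw [← Real.rpow_add hd0]; norm_num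
  have hcard := (Finset.card_le_card hsub).trans (Finset.card_union_le _ _)
  rw [Nat.card_Icc, Nat.add_sub_cancel] at hcard
  have hMr : (M : ℝ) ≤ 0.5 * (δ / ε) * X := by
    have h4 : (M : ℝ) ≤ (X : ℝ) ^ (0.98 : ℝ) := Nat.floor_le (by positivity)
    have h5 : (X : ℝ) ^ (0.98 : ℝ) * (X : ℝ) ^ (0.02 : ℝ) = X := by
      rw [← Real.rpow_add hX0]; norm_num
    have h6 : 0 < (X : ℝ) ^ (0.98 : ℝ) := by positivity
    have h7 : (X : ℝ) ^ (0.98 : ℝ) * (2 * ε / δ) ≤ X :=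
      (mul_le_mul_of_nonneg_left h2 h6.le).trans h5.le
    have h8 : (X : ℝ) ^ (0.98 : ℝ) ≤ X / (2 * ε / δ) := by
      rw [le_div_iff₀ (by positivity)]; exact h7
    calc (M : ℝ) ≤ X / (2 * ε / δ) := h4.trans h8
      _ = 0.5 * (δ / ε) * X := by field_simp; norm_num
  calc _ ≤ ((S.card + M : ℕ) : ℝ) := by exact_mod_cast hcard
    _ = S.card + M := by push_cast; ring
    _ ≤ 21.5 * (δ / ε) * X + 0.5 * (δ / ε) * X := add_le_add hSc hMr
    _ = 22 * (δ / ε) * X := by ring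

end Pool.Agent.Results.MP_d0d59f_nt.FewShortCycles
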