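import Pool.Agent.Q74.AR.Td

set_option autoImplicit false

/-!
# The law of the meeting time of two trajectories of the `3x+d` maps

`T_d x = x/2`, `(3x+d)/2` for odd `d`. The trajectories of `n` and `m` have met at time `t` if
`T_d^t n = T_d^t m`. For `m = 3 ^ a n + d b` the proportion of the `n` of an interval for which they have not met
at time `t` is the error function of `a / √t`, up to `o(1)`: uniformly in `d`, `a`, the interval (of at least
`K 2^t` integers), and `b` with `|b| ≤ 3 ^ a e^(δ t)`. The lower bound needs no condition on `b`. If `3 ∤ d` the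
condition `d ∣ m - 3 ^ a n` is necessary: otherwise at most `2 ^ t` integers of an interval satisfy
`T_d^t n = T_d^t m`.

The level of the pair (the power of `3` by which the second trajectory is ahead) starts at `a` and changes by
`1` or `-1` whenever the two trajectories have different parities; the pair meets soon after level `0`
is reached. So the law is that of the hitting time of `0` by Brownian motion. What has to be
proved is that the level is a random walk run at half speed: that the two trajectories have different parities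
half of the time, in mean square. The pair of trajectories is not equidistributed modulo `2 ^ n` in an obvious way;
we show that the state `3 ^ a x + b` of the pair is equidistributed in the mean
up to a factor polynomial in `n`, using only the occupation times of the residue classes of the level, and
that the pairs of residues with unequal numbers of equal and different parities are exponentially few.
-/

namespace Pool.Agent.Results.MP_d0d59f_nt.MeetingLaw

/-- the map `3x+d` -/
def T (d x : ℤ) : ℤ := if x % 2 = 0 then x / 2 else (3 * x + d) / 2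

/-- the error function -/
noncomputable def erf (x : ℝ) : ℝ := 2 / √Real.pi * ∫ u in (0 : ℝ)..x, Real.exp (-u ^ 2)

/-- (1) For every `ε > 0` there are `δ > 0`, `t₀` and `K` such that for all odd `d`, all `a ≥ 0`, `b`,
`t ≥ t₀`, `L ≥ K 2^t` and `M`: the proportion of the `n` of `[M, M + L)` with
`T_d^t n ≠ T_d^t (3 ^ a n + d b)` is at least `erf (a / √t) - ε`, and at most `erf (a / √t) + ε` if
`|b| ≤ 3 ^ a e^(δ t)`.
(2) If `d` is odd and prime to `3` and `d ∤ b`, then at most `2 ^ t` integers `n` of an interval satisfy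
`T_d^t n = T_d^t (3 ^ a n + b)`. -/
theorem result :
    (∀ ε : ℝ, 0 < ε → ∃ (δ : ℝ) (t₀ K : ℕ), 0 < δ ∧ ∀ (d : ℤ), d % 2 = 1 → ∀ (a : ℕ) (b : ℤ) (t L : ℕ),
      t₀ ≤ t → K * 2 ^ t ≤ L → ∀ M : ℤ,
      erf (a / √(t : ℝ)) - ε ≤
        ({n : ℤ | M ≤ n ∧ n < M + L ∧ (T d)^[t] n ≠ (T d)^[t] (3 ^ a * n + d * b)}.ncard : ℝ) / L ∧
      (|(b : ℝ)| ≤ 3 ^ a * Real.exp (δ * t) →
        ({n : ℤ | M ≤ n ∧ n < M + L ∧ (T d)^[t] n ≠ (T d)^[t] (3 ^ a * n + d * b)}.ncard : ℝ) / L ≤
          erf (a / √(t : ℝ)) + ε)) ∧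
    (∀ d : ℤ, d % 2 = 1 → ¬ 3 ∣ d → ∀ b : ℤ, ¬ d ∣ b → ∀ (a t L : ℕ) (M : ℤ),
      {n : ℤ | M ≤ n ∧ n < M + L ∧ (T d)^[t] n = (T d)^[t] (3 ^ a * n + b)}.ncard ≤ 2 ^ t) := by
  refine ⟨fun ε hε => ?_, fun d hd hd3 b hb a t L M => ?_⟩
  · obtain ⟨δ, hδ, t₀, ht₀, h⟩ := Pool.Agent.Q74.AR.surv_main (show 0 < ε / 2 by positivity)
    obtain ⟨t₁, ht₁, h'⟩ := Pool.Agent.Q74.AR.surv_lower (show 0 < ε / 2 by positivity)
    obtain ⟨K, hK⟩ := exists_nat_ge (4 / ε)
    refine ⟨δ, max t₀ t₁, max K 1, hδ, fun d hd a b t L ht hL M => ?_⟩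
    have hL' : ((max K 1 : ℕ) : ℝ) * 2 ^ t ≤ L := by exact_mod_cast hL
    have hp : (0 : ℝ) < 2 ^ t := by positivity
    have hK1 : (1 : ℝ) ≤ ((max K 1 : ℕ) : ℝ) := by exact_mod_cast le_max_right K 1
    have hK2 : 4 / ε ≤ ((max K 1 : ℕ) : ℝ) := hK.trans (by exact_mod_cast le_max_left K 1)
    have hLr : (0 : ℝ) < L := lt_of_lt_of_le (by positivity) hL'
    have hsm : 2 * (2 : ℝ) ^ t ≤ ε / 2 * L := by
      rw [div_le_iff₀ hε] at hK2
      calc 2 * (2 : ℝ) ^ t = 4 * 2 ^ t / 2 := by ring
        _ ≤ (((max K 1 : ℕ) : ℝ) * ε) * 2 ^ t / 2 := by gcongr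
        _ = ε / 2 * (((max K 1 : ℕ) : ℝ) * 2 ^ t) := by ring
        _ ≤ ε / 2 * L := mul_le_mul_of_nonneg_left hL' (by positivity)
    have hc := Pool.Agent.Q74.AR.meet_count_d hd t a b M L
    have he : erf (a / √(t : ℝ)) = Pool.Agent.Q74.AR.lim t a := (Pool.Agent.Q74.AR.lim_erf t a).symm
    rw [he]
    change |({n : ℤ | M ≤ n ∧ n < M + L ∧ (T d)^[t] n ≠ (T d)^[t] (3 ^ a * n + d * b)}.ncard : ℝ)
      - Pool.Agent.Q158.Pair.surv t (a, b) * L| ≤ 2 * 2 ^ t at hc
    rw [abs_le] at hc
    constructor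
    · rw [le_div_iff₀ hLr]
      have h1 := h' t (le_trans (le_max_right _ _) ht) (a, b)
      simp only at h1
      nlinarith
    · intro hb
      rw [div_le_iff₀ hLr]
      have hbe : Pool.Agent.Q74.AR.be (a, b) ≤ Real.exp (δ * t) := by
        unfold Pool.Agent.Q74.AR.be
        rw [div_le_iff₀ (by positivity), mul_comm]
        exact hb
      have h1 := (abs_le.1 (h t (le_trans (le_max_left _ _) ht) (a, b) hbe)).2
      simp only at h1
      nlinarith
  · have h3 : IsCoprime d 3 := by
      rw [Int.isCoprime_iff_gcd_eq_one]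
      have : Int.gcd d 3 ∣ 3 := by
        have := Int.gcd_dvd_right d 3
        exact_mod_cast this
      rcases (Nat.dvd_prime Nat.prime_three).mp this with h | h
      · exact h
      · exfalso
        have h2 := Int.gcd_dvd_left d 3
        rw [h] at h2
        exact hd3 (by exact_mod_cast h2)
    exact Pool.Agent.Q74.AR.no_meet_d hd h3 t a hb M L

end Pool.Agent.Results.MP_d0d59f_nt.MeetingLaw
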