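import Mathlib
import Pool.Agent.Q205.RP.Unif2

/-!
# Attracting sets for almost every perturbation of all `3x+d` maps at once

For `ω : ℤ → {0, 1}` let `U d ω x = T d (x + ω x)`, where `T d` is the `3x+d` map. For almost every
`ω` there is `C` such that for all odd `d` the finite set
`F d = {y : |y| ≤ |d| exp (C (log (2 + log |d|))²)}` meets every orbit of `U d ω`, within
`C log (2 + |x| + |d|)` steps from the starting point `x`.
-/

set_option autoImplicit false

open MeasureTheory Finset

namespace Pool.Agent.Results.MP_d0d59f_nt.UniformAttractingSets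

/-- The `3x+d` map. -/
def T (d x : ℤ) : ℤ := if x % 2 = 0 then x / 2 else (3 * x + d) / 2

/-- The perturbed map: the argument `x` is replaced by `x + ω x`. -/
def U (d : ℤ) (ω : ℤ → Fin 2) (x : ℤ) : ℤ := T d (x + ((ω x : ℕ) : ℤ))

/-- The law of independent fair coins, one for each integer. -/
noncomputable def coins : Measure (ℤ → Fin 2) :=
  Measure.infinitePi (fun _ : ℤ => (PMF.uniformOfFintype (Fin 2)).toMeasure)

theorem result : ∀ᵐ ω ∂coins, ∃ C : ℝ, ∀ d : ℤ, d % 2 = 1 → ∀ x : ℤ, ∃ k : ℕ,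
    (k : ℝ) ≤ C * Real.log (2 + |(x : ℝ)| + |(d : ℝ)|) ∧
    |(((U d ω)^[k] x : ℤ) : ℝ)| ≤
      |(d : ℝ)| * Real.exp (C * Real.log (2 + Real.log |(d : ℝ)|) ^ 2) :=
  Q205.RP.unif_ae

end Pool.Agent.Results.MP_d0d59f_nt.UniformAttractingSets
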